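import Mathlib

namespace Pool.Agent.Results.MP_d7d923_pr.Value

open MeasureTheory Set Filter Topology

/-- pure strategies `(a, A)` of RED -/
abbrev Red : Type := {q : ℝ × ℝ // 0 ≤ q.1 ∧ q.1 ≤ q.1 + q.2 ∧ q.1 + q.2 ≤ 1}

/-- the payoff to RED -/
noncomputable def pay (β : ℝ) (x : Red × unitInterval) : ℝ :=
  if x.1.1.1 ≤ x.2 ∧ x.2 ≤ x.1.1.1 + x.1.1.2 then -β * x.1.1.2 else x.1.1.2

/-- the expected payoff under mixed strategies -/
noncomputable def E (β : ℝ) (μ : ProbabilityMeasure Red) (ν : ProbabilityMeasure unitInterval) : ℝ :=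
  ∫ x, pay β x ∂(μ.toMeasure.prod ν.toMeasure)

theorem pay_meas (β : ℝ) : Measurable (pay β) := by
  unfold pay
  refine Measurable.ite ?_ (by fun_prop) (by fun_prop)
  measurability

theorem pay_bd (β : ℝ) (hβ : 0 ≤ β) (x) : -β ≤ pay β x ∧ pay β x ≤ 1 := by
  obtain ⟨⟨⟨a, A⟩, h1, h2, h3⟩, p⟩ := x
  simp only [pay] at *
  split_ifs <;> constructor <;> nlinarith

theorem pay_int (β : ℝ) (hβ : 0 ≤ β) (m : Measure (Red × unitInterval)) [IsFiniteMeasure m] :
    Integrable (pay β) m :=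
  Integrable.of_bound (pay_meas β).aestronglyMeasurable (β + 1) (Eventually.of_forall fun x => by
    have := pay_bd β hβ x
    rw [Real.norm_eq_abs, abs_le]; constructor <;> linarith)

theorem E_bd (β : ℝ) (hβ : 0 ≤ β) (μ ν) : -β ≤ E β μ ν ∧ E β μ ν ≤ 1 := by
  have a := integral_mono (integrable_const (-β)) (pay_int β hβ (μ.toMeasure.prod ν.toMeasure))
      fun x => (pay_bd β hβ x).1
  have b := integral_mono (pay_int β hβ (μ.toMeasure.prod ν.toMeasure)) (integrable_const 1)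
      fun x => (pay_bd β hβ x).2
  exact ⟨by simpa [E] using a, by simpa [E] using b⟩

theorem slice (β : ℝ) (q : Red) (ν : Measure unitInterval) [IsProbabilityMeasure ν] :
    ∫ p, pay β (q, p) ∂ν =
      q.1.2 * (1 - (1 + β) * ν.real {p | q.1.1 ≤ p ∧ p ≤ q.1.1 + q.1.2}) := by
  have hm : MeasurableSet {p : unitInterval | q.1.1 ≤ p ∧ p ≤ q.1.1 + q.1.2} := by measurability
  have : (fun p => pay β (q, p)) = fun p => q.1.2 - {p : unitInterval | q.1.1 ≤ p ∧
      p ≤ q.1.1 + q.1.2}.indicator (fun _ => (1 + β) * q.1.2) p := by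
    funext p
    simp only [pay, indicator, mem_ofPred_eq]
    split_ifs <;> ring
  rw [this, integral_sub (integrable_const _) ((integrable_const _).indicator hm),
    integral_indicator_const _ hm]
  simp
  ring

theorem blue (β M : ℝ) (hβ : 0 ≤ β) (hM : 0 < M) (h1 : ∀ n : ℕ, n - M * n ^ 2 ≤ 1 + β)
    (h2 : ∃ n : ℕ, n - M * n ^ 2 = 1 + β) :
    ∃ ν : ProbabilityMeasure unitInterval, ∀ μ, E β μ ν ≤ M := by
  obtain ⟨G, hG⟩ : ∃ G : ℝ → ℝ, G = fun x => if x ≤ 0 then 0 else
    ⨆ n : ℕ, (n - M * n ^ 2 / min x 1) := ⟨_, rfl⟩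
  have hb : ∀ x, 0 < x → ∀ n : ℕ, n - M * n ^ 2 / min x 1 ≤ 1 + β := fun x hx n => by
    refine le_trans (sub_le_sub_left ?_ _) (h1 n)
    exact le_div_self (by positivity) (by positivity) (min_le_right _ _)
  have hbd : ∀ x, 0 < x → BddAbove (range fun n : ℕ => (n - M * n ^ 2 / min x 1 : ℝ)) :=
    fun x hx => ⟨1 + β, by rintro _ ⟨n, rfl⟩; exact hb x hx n⟩
  have hle : ∀ x, 0 < x → ∀ n : ℕ, n - M * n ^ 2 / min x 1 ≤ G x := fun x hx n => by
    rw [hG]; simp only [if_neg (not_le.2 hx)]; exact le_ciSup (hbd x hx) n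
  have h0 : ∀ x, x ≤ 0 → G x = 0 := fun x hx => by rw [hG]; exact if_pos hx
  have hup : ∀ x c, 0 < x → (∀ n : ℕ, n - M * n ^ 2 / min x 1 ≤ c) → G x ≤ c := fun x c hx h => by
    rw [hG]; simp only [if_neg (not_le.2 hx)]; exact ciSup_le h
  have hmono : Monotone G := fun x y hxy => by
    rcases le_or_gt y 0 with hy | hy
    · rw [h0 y hy, h0 x (hxy.trans hy)]
    rcases le_or_gt x 0 with hx | hx
    · simpa [h0 x hx] using hle y hy 0
    refine hup x _ hx fun n => le_trans (sub_le_sub_left ?_ _) (hle y hy n)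
    exact div_le_div_of_nonneg_left (by positivity) (by positivity) (min_le_min_right _ hxy)
  have hone : ∀ x, 1 ≤ x → G x = 1 + β := fun x hx => by
    refine le_antisymm (hup x _ (by linarith) (hb x (by linarith))) ?_
    obtain ⟨n, hn⟩ := h2
    simpa [min_eq_right hx, hn] using hle x (by linarith) n
  have hsup : ∀ a A, 0 ≤ a → 0 < A → a + A ≤ 1 → G a + (1 - M / A) ≤ G (a + A) :=
    fun a A ha hA h => by
    rcases ha.eq_or_lt with rfl | ha
    · simpa [h0, min_eq_left (show A ≤ 1 by linarith)] using hle A hA 1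
    rw [← le_sub_iff_add_le]
    refine hup a _ ha fun n => ?_
    have e := hle (a + A) (by linarith) (n + 1)
    rw [min_eq_left h] at e
    rw [min_eq_left (by linarith)]
    have : ((n : ℝ) + 1) ^ 2 / (a + A) ≤ n ^ 2 / a + 1 / A := by
      rw [div_add_div _ _ ha.ne' hA.ne', div_le_div_iff₀ (by positivity) (by positivity)]
      nlinarith [sq_nonneg (n * A - a)]
    have := mul_le_mul_of_nonneg_left this hM.le
    push_cast at e
    simp only [mul_div_assoc, div_eq_mul_one_div M A] at *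
    linarith
  have hp : 0 < 1 + β := by linarith
  have hm2 : Monotone fun x => G x / (1 + β) := fun x y h =>
    div_le_div_of_nonneg_right (hmono h) hp.le
  obtain ⟨f, hf⟩ : ∃ f, f = hm2.stieltjesFunction := ⟨_, rfl⟩
  have f1 : ∀ x, G x / (1 + β) ≤ f x := fun x => by
    rw [hf]; exact hm2.le_rightLim le_rfl
  have f2 : ∀ x y, x < y → f x ≤ G y / (1 + β) := fun x y h => by
    rw [hf]; exact hm2.rightLim_le h
  have f3 : ∀ x, Function.leftLim f x ≤ G x / (1 + β) := fun x =>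
    le_of_tendsto (f.mono.tendsto_leftLim x) (eventually_nhdsWithin_of_forall fun y hy => f2 y x hy)
  have : IsProbabilityMeasure f.measure := by
    refine f.isProbabilityMeasure (tendsto_const_nhds.congr' ?_) (tendsto_const_nhds.congr' ?_)
    · filter_upwards [eventually_lt_atBot 0] with x hx
      have a := f1 x
      have b := f2 x 0 hx
      rw [h0 x hx.le] at a
      rw [h0 0 le_rfl] at b
      simp only [zero_div] at a b
      linarith
    · filter_upwards [eventually_ge_atTop 1] with x hx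
      have a := f1 x
      have b := f2 x (x + 1) (by linarith)
      rw [hone x hx, div_self hp.ne'] at a
      rw [hone _ (by linarith), div_self hp.ne'] at b
      linarith
  have hpm : Measurable (projIcc (0 : ℝ) 1 zero_le_one) := continuous_projIcc.measurable
  refine ⟨⟨f.measure.map (projIcc 0 1 zero_le_one), Measure.isProbabilityMeasure_map
    hpm.aemeasurable⟩, fun μ => ?_⟩
  unfold E
  rw [integral_prod _ (pay_int β hβ _)]
  have key : ∀ q : Red, ∫ p, pay β (q, p) ∂(f.measure.map (projIcc 0 1 zero_le_one)) ≤ M := by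
    have := Measure.isProbabilityMeasure_map (μ := f.measure) hpm.aemeasurable
    rintro ⟨⟨a, A⟩, h1, h2, h3⟩
    rw [slice]
    simp only at *
    rcases (show 0 ≤ A by linarith).eq_or_lt with rfl | hA
    · simpa using hM.le
    have e : f.measure.real (Icc a (a + A)) ≤ (f.measure.map (projIcc 0 1 zero_le_one)).real
        {p : unitInterval | a ≤ p ∧ p ≤ a + A} := by
      rw [map_measureReal_apply hpm (by measurability)]
      refine measureReal_mono fun x hx => ?_
      simpa [projIcc_of_mem zero_le_one (show x ∈ Icc 0 1 from ⟨h1.trans hx.1, hx.2.trans h3⟩)]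
        using hx
    have e2 : (1 - M / A) / (1 + β) ≤ f.measure.real (Icc a (a + A)) := by
      rw [Measure.real, f.measure_Icc]
      rw [ENNReal.toReal_ofReal']
      refine le_trans ?_ (le_max_left _ _)
      have := div_le_div_of_nonneg_right (hsup a A h1 hA h3) hp.le
      rw [add_div] at this
      linarith [f1 (a + A), f3 a]
    rw [div_le_iff₀ hp] at e2
    have e3 := mul_le_mul_of_nonneg_right e hp.le
    have e4 : A * (M / A) = M := by field_simp
    nlinarith
  have := integral_mono (μ := μ.toMeasure) (pay_int β hβ (μ.toMeasure.prod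
    (f.measure.map (projIcc 0 1 zero_le_one)))).integral_prod_left (integrable_const M) key
  simpa using this

theorem red (β η : ℝ) (hβ : 0 ≤ β) (n : ℕ) (hn : 0 < n) (h0 : 0 < η) (h1 : η < 1) :
    ∃ μ : ProbabilityMeasure Red, ∀ ν, (1 - η) * ((n - 1 - β) / n ^ 2) ≤ E β μ ν := by
  have hn' : (0 : ℝ) < n := by exact_mod_cast hn
  have : NeZero n := ⟨hn.ne'⟩
  let r : Fin n → Red := fun k => ⟨(k / n, (1 - η) / n), by positivity,
    le_add_of_nonneg_right (div_nonneg (by linarith) hn'.le), by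
      have : ((k : ℕ) : ℝ) + 1 ≤ n := by exact_mod_cast k.2
      rw [← add_div, div_le_one hn']; linarith⟩
  have hr : Measurable r := measurable_from_top
  have hu : IsProbabilityMeasure ((PMF.uniformOfFintype (Fin n)).toMeasure.map r) :=
    Measure.isProbabilityMeasure_map hr.aemeasurable
  refine ⟨⟨_, hu⟩, fun ν => ?_⟩
  unfold E
  rw [integral_prod_symm _ (pay_int β hβ _)]
  have key : ∀ p : unitInterval, (1 - η) * ((n - 1 - β) / n ^ 2) ≤
      ∫ q, pay β (q, p) ∂((PMF.uniformOfFintype (Fin n)).toMeasure.map r) := fun p => by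
    rw [integral_map (f := fun q => pay β (q, p)) hr.aemeasurable (((pay_meas β).comp
      measurable_prodMk_right).aestronglyMeasurable), PMF.integral_eq_sum]
    simp only [PMF.uniformOfFintype_apply, Fintype.card_fin, smul_eq_mul, ENNReal.toReal_inv,
      ENNReal.toReal_natCast, ← Finset.mul_sum]
    have e : ∀ k : Fin n, pay β (r k, p) = (1 - η) / n - (1 + β) * ((1 - η) / n) *
        if (k : ℝ) / n ≤ p ∧ (p : ℝ) ≤ (k : ℝ) / n + (1 - η) / n then 1 else 0 := fun k => by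
      simp only [pay, r]; split_ifs <;> ring
    have c : (∑ k : Fin n, if (k : ℝ) / n ≤ p ∧ (p : ℝ) ≤ (k : ℝ) / n + (1 - η) / n then 1 else 0 : ℝ) ≤ 1 := by
      rw [Finset.sum_boole, Nat.cast_le_one, Finset.card_le_one]
      simp only [Finset.mem_filter, Finset.mem_univ, true_and, ← add_div, div_le_iff₀ hn',
        le_div_iff₀ hn']
      rintro a ⟨a1, a2⟩ b ⟨b1, b2⟩
      have x1 : ((a : ℕ) : ℝ) < b + 1 := by linarith
      have x2 : ((b : ℕ) : ℝ) < a + 1 := by linarith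
      norm_cast at x1 x2
      omega
    simp only [e, Finset.sum_sub_distrib, ← Finset.mul_sum, Finset.sum_const, Finset.card_univ,
      Fintype.card_fin, nsmul_eq_mul]
    have := mul_le_mul_of_nonneg_left c (show 0 ≤ (1 + β) * ((1 - η) / n) by
      have : 0 < 1 - η := by linarith
      positivity)
    rw [← div_eq_inv_mul, le_div_iff₀ hn']
    refine le_trans (le_of_eq ?_) (sub_le_sub_left this _)
    field_simp
    ring
  have := integral_mono (μ := ν.toMeasure) (integrable_const _) (pay_int β hβ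
    (((PMF.uniformOfFintype (Fin n)).toMeasure.map r).prod ν.toMeasure)).integral_prod_right key
  simpa using this

theorem result (β : ℝ) (hβ : 0 ≤ β) :
    ∃ M : ℝ, IsGreatest {x : ℝ | ∃ n : ℕ, 1 ≤ n ∧ x = (n - 1 - β) / n ^ 2} M ∧
      (∃ ν, ∀ μ, E β μ ν ≤ M) ∧ (∀ ε > 0, ∃ μ, ∀ ν, M - ε ≤ E β μ ν) ∧
      ⨆ μ, ⨅ ν, E β μ ν = M ∧ ⨅ ν, ⨆ μ, E β μ ν = M := by
  obtain ⟨n, hn, hmax⟩ : ∃ n : ℕ, 1 ≤ n ∧ ∀ m : ℕ, 1 ≤ m →
      ((m : ℝ) - 1 - β) / m ^ 2 ≤ (n - 1 - β) / n ^ 2 := by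
    obtain ⟨k, hk⟩ := exists_nat_gt (1 + β)
    have k0 : (0 : ℝ) < k := by linarith
    have k1 : 0 < ((k : ℝ) - 1 - β) / k ^ 2 := div_pos (by linarith) (by positivity)
    obtain ⟨N, hN⟩ := exists_nat_one_div_lt k1
    have hk' : k ∈ Finset.Icc 1 (N + k) := Finset.mem_Icc.2 ⟨by exact_mod_cast k0, by omega⟩
    obtain ⟨n, hn, h⟩ := (Finset.Icc 1 (N + k)).exists_max_image
      (fun m : ℕ => ((m : ℝ) - 1 - β) / m ^ 2) ⟨k, hk'⟩
    refine ⟨n, (Finset.mem_Icc.1 hn).1, fun m hm => ?_⟩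
    rcases le_or_gt m (N + k) with a | a
    · exact h m (Finset.mem_Icc.2 ⟨hm, a⟩)
    have m0 : (N : ℝ) + 1 ≤ m := by exact_mod_cast (show N + 1 ≤ m by omega)
    have m1 : (0 : ℝ) < m := by exact_mod_cast hm
    refine le_trans ?_ (hN.le.trans (h k hk'))
    rw [div_le_div_iff₀ (by positivity) (by positivity)]
    nlinarith [mul_nonneg hβ (show (0 : ℝ) ≤ N + 1 by positivity)]
  obtain ⟨M, hM⟩ : ∃ M : ℝ, M = (n - 1 - β) / n ^ 2 := ⟨_, rfl⟩
  rw [← hM] at hmax
  have hn' : (0 : ℝ) < n := by exact_mod_cast hn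
  have hpos : 0 < M := by
    obtain ⟨m, hm⟩ := exists_nat_gt (1 + β)
    have : (0 : ℝ) < m := by linarith
    exact lt_of_lt_of_le (div_pos (by linarith) (by positivity)) (hmax m (by exact_mod_cast this))
  obtain ⟨ν, hν⟩ := blue β M hβ hpos (fun m => by
    rcases m.eq_zero_or_pos with rfl | hm
    · simp; linarith
    have := hmax m hm
    rw [div_le_iff₀ (by positivity)] at this
    linarith) ⟨n, by rw [hM]; field_simp; ring⟩
  have hμ : ∀ ε > 0, ∃ μ, ∀ ν, M - ε ≤ E β μ ν := fun ε hε => by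
    obtain ⟨μ, h⟩ := red β (ε / (M + ε)) hβ n hn (by positivity)
      ((div_lt_one (by positivity)).2 (by linarith))
    refine ⟨μ, fun ν => le_trans ?_ (h ν)⟩
    rw [← hM, sub_mul, one_mul, div_mul_eq_mul_div, sub_le_sub_iff_left,
      div_le_iff₀ (by positivity)]
    nlinarith
  have : Nonempty (ProbabilityMeasure Red) := ⟨(hμ 1 one_pos).choose⟩
  have : Nonempty (ProbabilityMeasure unitInterval) := ⟨ν⟩
  have b1 : ∀ μ, BddBelow (range fun ν => E β μ ν) := fun μ =>
    ⟨-β, by rintro _ ⟨ν, rfl⟩; exact (E_bd β hβ μ ν).1⟩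
  have b2 : ∀ ν, BddAbove (range fun μ => E β μ ν) := fun ν =>
    ⟨1, by rintro _ ⟨μ, rfl⟩; exact (E_bd β hβ μ ν).2⟩
  have c1 : ∀ μ, ⨅ ν, E β μ ν ≤ M := fun μ => (ciInf_le (b1 μ) ν).trans (hν μ)
  have c2 : ∀ ν, M ≤ ⨆ μ, E β μ ν := fun ν => le_of_forall_sub_le fun ε hε => by
    obtain ⟨μ, h⟩ := hμ ε hε
    exact (h ν).trans (le_ciSup (b2 ν) μ)
  refine ⟨M, ⟨⟨n, hn, hM⟩, by rintro _ ⟨m, hm, rfl⟩; exact hmax m hm⟩, ⟨ν, hν⟩, hμ,
    le_antisymm (ciSup_le c1) (le_of_forall_sub_le fun ε hε => ?_),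
    le_antisymm ((ciInf_le ⟨M, by rintro _ ⟨ν, rfl⟩; exact c2 ν⟩ ν).trans (ciSup_le hν))
      (le_ciInf c2)⟩
  obtain ⟨μ, h⟩ := hμ ε hε
  exact (le_ciInf h).trans (le_ciSup (f := fun μ => ⨅ ν, E β μ ν)
    ⟨M, by rintro _ ⟨μ, rfl⟩; exact c1 μ⟩ μ)

end Pool.Agent.Results.MP_d7d923_pr.Value
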